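import Pool.Agent.U243.ACFExists

/-!
# Smooth subvarieties of small codimension: every degree over finite fields

`SubvarietyTheory` collects the known facts used: the irreducible subvarieties `X ⊂ ℙⁿ` of codimension `r` and degree `δ` are defined by
equations whose degrees are at most `δ`, so over all algebraically closed fields they are given by bounded systems of coefficients
`a`. That `a` defines such a smooth `X`, and that `X` is a transversal intersection of `r` hypersurfaces (their degrees have product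
`δ`), are constructible conditions over `ℤ`, hence first-order conditions (`sub_fo`, `ci_fo`).
-/

set_option autoImplicit false

namespace Pool.Agent.Results.MP_9a3fdb_ag.DegreeByDegree

open Pool.Agent.U243.ACF

/-- Smooth subvarieties of projective spaces over algebraically closed fields, with the known facts that are used. -/
structure SubvarietyTheory where
  /-- the number of the coefficients -/
  k : ℕ → ℕ → ℕ → ℕ
  /-- `Sub n r δ K a`: `a` defines a nonsingular irreducible closed `X_a ⊂ ℙⁿ` over `K` of codimension `r` and degree `δ` -/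
  Sub : ∀ (n r δ : ℕ) (K : Type) [Field K], (Fin (k n r δ) → K) → Prop
  /-- `X_a` is a transversal intersection of `r` hypersurfaces -/
  CI : ∀ (n r δ : ℕ) (K : Type) [Field K], (Fin (k n r δ) → K) → Prop
  /-- every nonsingular irreducible closed `X ⊂ ℙⁿ` over `ℂ` of codimension `r` is a transversal intersection of `r`
  hypersurfaces -/
  AllCI : ∀ _n _r : ℕ, Prop
  sub_fo : ∀ n r δ, FO1 (Sub n r δ)
  ci_fo : ∀ n r δ, FO1 (CI n r δ)
  all_iff : ∀ n r, AllCI n r ↔ ∀ δ, ∀ a : Fin (k n r δ) → ℂ, Sub n r δ ℂ a → CI n r δ ℂ a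

variable (S : SubvarietyTheory)

/-- every nonsingular irreducible closed `X ⊂ ℙⁿ` over `K` of codimension `r` and degree `δ` is a transversal intersection of `r`
hypersurfaces -/
def AllOfDegree (n r δ : ℕ) (K : Type) [Field K] : Prop := ∀ a : Fin (S.k n r δ) → K, S.Sub n r δ K a → S.CI n r δ K a

/-- For all `n`, `r`, `δ` it is the same whether `AllOfDegree n r δ K` holds for `K = ℂ`, for the algebraic closure of `ℚ`, for all
algebraically closed fields of characteristic `p` for all large `p`, or for one such field for infinitely many `p`. So Q1, Q2 are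
equivalent to: for all degrees `δ` and infinitely many `p` (depending on `δ`) the subvarieties of degree `δ` over an algebraically
closed field of characteristic `p` are complete intersections. Third part: if for some `n`, `r`, `δ` and infinitely many `p` there
is an `X ⊂ ℙⁿ` of codimension `r` and degree `δ` over an algebraically closed field of characteristic `p` which is not a complete
intersection, then there is one over `ℂ`. -/
theorem result :
    (∀ n r δ : ℕ, List.TFAE [
      AllOfDegree S n r δ ℂ,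
      AllOfDegree S n r δ (AlgebraicClosure ℚ),
      ∃ B, ∀ p, B < p → p.Prime → ∀ (K : Type) [Field K], IsAlgClosed K → CharP K p → AllOfDegree S n r δ K,
      ∀ B, ∃ p, B < p ∧ p.Prime ∧ ∃ (K : Type) (_ : Field K), IsAlgClosed K ∧ CharP K p ∧ AllOfDegree S n r δ K]) ∧
    ((∃ f : ℕ → ℕ, ∀ r n, 1 ≤ r → f r < n → S.AllCI n r) ↔
      ∃ f : ℕ → ℕ, ∀ r n, 1 ≤ r → f r < n → ∀ δ, ∀ B, ∃ p, B < p ∧ p.Prime ∧ ∃ (K : Type) (_ : Field K),
        IsAlgClosed K ∧ CharP K p ∧ AllOfDegree S n r δ K) ∧
    (S.AllCI 6 2 ↔ ∀ δ, ∀ B, ∃ p, B < p ∧ p.Prime ∧ ∃ (K : Type) (_ : Field K),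
        IsAlgClosed K ∧ CharP K p ∧ AllOfDegree S 6 2 δ K) ∧
    ∀ n r δ : ℕ, (∀ B, ∃ p, B < p ∧ p.Prime ∧ ∃ (K : Type) (_ : Field K), IsAlgClosed K ∧ CharP K p ∧
      ¬ AllOfDegree S n r δ K) → ¬ S.AllCI n r := by
  have neg : ∀ (n r δ : ℕ) (K : Type) [Field K],
      ¬ AllOfDegree S n r δ K ↔ ∃ a : Fin (S.k n r δ) → K, S.Sub n r δ K a ∧ ¬ S.CI n r δ K a := by
    intro n r δ K _
    unfold AllOfDegree
    push Not
    exact Iff.rfl
  have key : ∀ n r δ : ℕ, List.TFAE [
      AllOfDegree S n r δ ℂ,
      AllOfDegree S n r δ (AlgebraicClosure ℚ),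
      ∃ B, ∀ p, B < p → p.Prime → ∀ (K : Type) [Field K], IsAlgClosed K → CharP K p → AllOfDegree S n r δ K,
      ∀ B, ∃ p, B < p ∧ p.Prime ∧ ∃ (K : Type) (_ : Field K), IsAlgClosed K ∧ CharP K p ∧
        AllOfDegree S n r δ K] := by
    intro n r δ
    have e := ex_tfae ((S.sub_fo n r δ).and (S.ci_fo n r δ).neg)
    have e01 := e.out 0 1
    have e02 := e.out 0 2
    have e03 := e.out 0 3
    tfae_have 1 ↔ 2 := by
      rw [← not_iff_not, neg, neg]
      exact e01
    tfae_have 1 ↔ 3 := by
      rw [← not_iff_not, neg, e03]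
      constructor
      · rintro h ⟨B, h2⟩
        obtain ⟨p, hp, hpp, K, _, hK, hc, h3⟩ := h B
        exact (neg n r δ K).2 h3 (h2 p hp hpp K hK hc)
      · intro h B
        by_contra h3
        refine h ⟨B, fun p hp hpp K _ hK hc => ?_⟩
        by_contra h4
        exact h3 ⟨p, hp, hpp, K, _, hK, hc, (neg n r δ K).1 h4⟩
    tfae_have 1 ↔ 4 := by
      rw [← not_iff_not, neg, e02]
      constructor
      · rintro ⟨B, h2⟩ h
        obtain ⟨p, hp, hpp, K, _, hK, hc, h3⟩ := h B
        exact (neg n r δ K).2 (h2 p hp hpp K hK hc) h3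
      · intro h
        by_contra h2
        refine h fun B => ?_
        by_contra h3
        exact h2 ⟨B, fun p hp hpp K _ hK hc => (neg n r δ K).1 fun h4 => h3 ⟨p, hp, hpp, K, _, hK, hc, h4⟩⟩
    tfae_finish
  have k03 := fun n r δ => (key n r δ).out 0 3
  have all : ∀ n r, S.AllCI n r ↔ ∀ δ, ∀ B, ∃ p, B < p ∧ p.Prime ∧ ∃ (K : Type) (_ : Field K),
      IsAlgClosed K ∧ CharP K p ∧ AllOfDegree S n r δ K := fun n r =>
    (S.all_iff n r).trans (forall_congr' fun δ => k03 n r δ)
  refine ⟨key, ?_, all 6 2, fun n r δ h => ?_⟩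
  · constructor
    · rintro ⟨f, hf⟩
      exact ⟨f, fun r n h1 h2 => (all n r).1 (hf r n h1 h2)⟩
    · rintro ⟨f, hf⟩
      exact ⟨f, fun r n h1 h2 => (all n r).2 (hf r n h1 h2)⟩
  · intro hall
    have k02 := (key n r δ).out 0 2
    obtain ⟨B, hB⟩ := k02.1 ((S.all_iff n r).1 hall δ)
    obtain ⟨p, hp, hpp, K, _, hK, hc, h3⟩ := h B
    exact h3 (hB p hp hpp K hK hc)

end Pool.Agent.Results.MP_9a3fdb_ag.DegreeByDegree
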