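import Pool.Agent.N17.HC.KOS
import Pool.Agent.N17.HC.LSP
import Pool.Agent.N17.HC.ALG
import Pool.Agent.N17.HC.ANA
import Pool.Agent.N17.HC.FAC
import Pool.Agent.N17.HC.CUBE
import Pool.Agent.N17.HC.REC
import Pool.Agent.N17.HC.CHR
import Pool.Agent.N17.HC.DIV
import Pool.Agent.N17.HC.CUB
import Pool.Agent.N17.HC.FIN
import Pool.Agent.R852.BC.Main
import Pool.Agent.N17.CK.ROOT
import Pool.Agent.N17.CK.BD
import Pool.Agent.N17.CK.SPL
import Pool.Agent.N17.CK.POSEND
import Pool.Agent.N17.CK.MAIN
import Pool.Agent.U256.CY9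

/-!
# Fano and Calabi-Yau subvarieties of arbitrary codimension are numerically complete intersections

Let `X ⊂ ℙ^N` be a smooth subvariety of codimension `r` and degree `d`, `N ≥ 4 r`. By Barth and
Larsen the groups `H^(2 i)(X, ℤ)`, `i ≤ r`, are generated by the powers of the hyperplane class `h`,
and `Pic X = ℤ h`; so `ω_X = O_X(k)` for some `k`, and the Chern polynomial
`P = T^r - c₁ T^(r-1) + c₂ T^(r-2) - ...` of the normal bundle (`c_i(N_X) = c_i h^i`) has integral
coefficients, `c₁ = k + N + 1` by adjunction. Its complex roots `β_i` are the Chern roots of `N_X` in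
units of `h`, and `β_1 ... β_r = d` (self-intersection formula). `X` is numerically a complete
intersection of hypersurfaces of degrees `a_1, ..., a_r` if and only if `β_i = a_i`; then it has the
degree, the canonical class, the Chern classes and the Hilbert polynomial of a complete intersection.
The following is known:

* (positivity) `N_X(-1)`, a quotient of `T_ℙ(-1)`, is globally generated, and so are its exterior
  powers `Λ^b`. So the Schur polynomials `c_i` and `c_1 c_i - c_(i+1)` of `N_X(-1)` are not negative,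
  and neither are the Segre numbers of `Λ^b (N_X(-1))` in the degrees `j ≤ dim X = N - r`: these are
  the coefficients of `∏ 1 / (1 - w T)`, `w` running over the sums of `b` of the numbers `β_i - 1`;
* (integrality) `χ((N_X^*)^{⊗ l}(t))` is an integer for all `l ≥ 0` and all `t`; by the theorem of
  Riemann-Roch it is `Σ χ(O_X(t - β_(i_1) - ... - β_(i_l)))`, and `χ(O_X(x))` is the Koszul sum
  `Σ_S (-1)^|S| χ(ℙ^N, O(x - Σ_(i ∈ S) β_i))`.

We show: for every `r` and all `N ≥ N₀(r)`: if some Chern root is not a positive integer, then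

  `c₁ = k + N + 1 > (8 / 5) N`, and `c₁ > (2 / 5) m N` for every Chern root of degree `m ≥ 2` over `ℚ`.

So `X` is numerically a complete intersection if `ω_X = O_X(k)` with `k + 1 ≤ (3 / 5) N`: this holds
for all Fano and Calabi-Yau subvarieties of codimension `r`, without any bound for the degree. In
`Results/MP_9a3fdb_ag/SmallCanonicalClass.lean` this is shown for `r ≤ 3` (where `k ≤ N ^ 1.099` is
allowed), and in every codimension for the Chern roots of degree at most three.

The proof. Let `Q` be the minimal polynomial of a Chern root, of degree `m ≥ 2`.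
(1) Let `p` be any prime and `v` its exponent in `d`. With `E = ∏ (1 - (1+w)^(-β_i))`,
`f = Σ (1+w)^(-β_i)` the integrality says that the coefficients of `E f^l` up to `w^N` are integers, for
all `l`. If `g` is the first coefficient of `f` which is not `p`-integral, at `w^k`, and `f₀` the part of
`f` before it, then the lowest coefficient of `E (f - f₀)^(v + 1)` is `d g^(v + 1)`; this is not
`p`-integral, so `r + k (v + 1) > N`. So the power sums `Σ_i q(β_i)` of all integer valued polynomials
`q` of degree at most `(N - r) / (v + 1)` are `p`-integral (also at the primes which divide `d`), and by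
Newton's identities `r! q(β_i)` is integral over `ℤ_(p)` if `r deg q ≤ (N - r) / (v + 1)`. (2) We apply
this to the binomial polynomials for the primes `p ≤ √N`, and the splitting of `P` modulo the primes
`√N < p ≤ N + 1 - 2 r` not dividing `d` (project HC) for the other primes: for `n = N + 1 - 2 r` and every
integer `a` the norm of the binomial coefficient `C(β - a, n)` is, up to a factor `e^(o(N))`, a non-zero
integer, that is, `∏_(a ≤ t < a + n) |Q(t)| ≥ (n!)^m e^(-o(N))`. (3) Location of the Chern roots: if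
all Segre numbers of all `Λ^b (N_X(-1))` are not negative, the theorem of Pringsheim says that the sum
of `b` of the numbers `x_i = β_i - 1` of largest absolute value may be taken real and positive; if some
`x_i` is not real, let `x_j` be one with the largest real part, and `b - 1` the number of those `x_i`
with larger real part: the sum of these and `x_j` is not real and has a larger absolute value than all
real sums, a contradiction. So all `x_i` are real, and not negative since `c_i ≥ 0`. By compactness the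
`x_i` are close to the half-line of the non-negative real numbers, compared with `c₁`, if the degrees are
bounded by `N - r` and `N` is large. (4) For `a = 1 - n / 4` the product of (2) is too small if `Σ x_i`
is at most `(2 / 5) m N`: this follows from the concavity of the entropy and `3 ^ 15 < 2 ^ 24`.
(5) The factors of degree two and three are treated in the project CK.
-/

set_option autoImplicit false

namespace Pool.Agent.Results.MP_9a3fdb_ag.FanoAllCodimensions

open Polynomial

/-- The Chern roots: the complex roots of `P` with multiplicities. -/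
noncomputable def chernRoots (P : ℤ[X]) : Multiset ℂ := (P.map (Int.castRingHom ℂ)).roots

/-- The Chern numbers of `N_X(-1)`: `(-1)^i` times the coefficient of `T^(r - i)` in `P(T + 1)`,
`i ≤ r`. -/
noncomputable def chernTwist (r : ℕ) (P : ℤ[X]) (i : ℕ) : ℤ :=
  (-1) ^ i * (P.comp (X + 1)).coeff (r - i)

/-- The Segre number of degree `j` of `Λ^b (N_X(-1))`: the coefficient of `T^j` in
`∏ 1 / (1 - w T)`, `w` running over the sums of `b` of the numbers `β_i - 1`. -/
noncomputable def segreWedge (P : ℤ[X]) (b j : ℕ) : ℂ :=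
  PowerSeries.coeff j (((((chernRoots P).map fun β => β - 1).powersetCard b).map fun I =>
    PowerSeries.mk fun k => I.sum ^ k).prod)

/-- `χ(ℙ^N, O(x)) = (x + 1) ... (x + N) / N!`. -/
noncomputable def chiPN (N : ℕ) (x : ℂ) : ℂ :=
  (∏ j ∈ Finset.range N, (x + j + 1)) / N.factorial

/-- `χ(O_X(x)) = Σ_S (-1)^|S| χ(ℙ^N, O(x - β_S))`, `S` running over the submultisets of the multiset
of the Chern roots of the normal bundle, `β_S` the sum of the elements of `S`. -/
noncomputable def chiX (N : ℕ) (P : ℤ[X]) (x : ℂ) : ℂ :=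
  ((chernRoots P).powerset.map fun S => (-1) ^ Multiset.card S * chiPN N (x - S.sum)).sum

/-- `χ((N_X^*)^{⊗ l}(x))`: `χ(O_X(x))` for `l = 0`, and the sum of `χ((N_X^*)^{⊗ l}(x - β_i))` over
the Chern roots for `l + 1`. -/
noncomputable def chiTensor (N : ℕ) (P : ℤ[X]) : ℕ → ℂ → ℂ
  | 0, x => chiX N P x
  | l + 1, x => ((chernRoots P).map fun b => chiTensor N P l (x - b)).sum

open Pool.Agent.N17.HC in
theorem bin_eq (N : ℕ) (x : ℂ) : bin N (N + x) = chiPN N x := by
  unfold bin chiPN
  congr 1
  rw [← Finset.prod_range_reflect]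
  refine Finset.prod_congr rfl fun j hj => ?_
  have hj' := Finset.mem_range.1 hj
  rw [show N - 1 - j = N - (j + 1) by omega, Nat.cast_sub (by omega)]
  push_cast
  ring

open Pool.Agent.N17.HC Pool.Agent.U256.CY in
theorem kosT_eq (N : ℕ) (P : ℤ[X]) (l : ℕ) (x : ℂ) :
    kosT N (rootsOf P) l (N + x) = chiTensor N P l x := by
  induction l generalizing x with
  | zero =>
    unfold kosT kos chiTensor chiX
    change Multiset.sum (Multiset.map _ (Multiset.powerset (chernRoots P))) = _
    congr 1
    refine Multiset.map_congr rfl fun S _ => ?_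
    rw [add_sub_assoc, bin_eq]
  | succ l ih =>
    unfold kosT chiTensor
    change Multiset.sum (Multiset.map _ (chernRoots P)) = _
    congr 1
    refine Multiset.map_congr rfl fun b _ => ?_
    rw [add_sub_assoc, ih]

/-- **For every codimension `r` and all `N ≥ N₀(r)`: smooth subvarieties `X ⊂ ℙ^N` of codimension `r`
with `ω_X = O_X(k)`, `k + 1 ≤ (3 / 5) N`, are numerically complete intersections.** -/
theorem result (r : ℕ) (hr : 1 ≤ r) : ∃ N₀ : ℕ, ∀ N : ℕ, N₀ ≤ N →
    ∀ P : ℤ[X], P.Monic → P.natDegree = r →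
    -- positivity: Schur polynomials `c_i`, `c_1 c_i - c_(i+1)` of `N_X(-1)`, Segre numbers of `Λ^b`
    (∀ i ≤ r, 0 ≤ chernTwist r P i) →
    (∀ i < r, chernTwist r P (i + 1) ≤ chernTwist r P 1 * chernTwist r P i) →
    (∀ b, 1 ≤ b → b ≤ r → ∀ j ≤ N - r, ∃ z : ℕ, segreWedge P b j = z) →
    -- integrality of the Euler characteristics of `(N_X^*)^{⊗ l}(t)`
    (∀ (l : ℕ) (t : ℤ), ∃ z : ℤ, chiTensor N P l t = z) →
    -- `ω_X = O_X(k)`: `c_1(N_X) = k + N + 1`
    ∀ k : ℤ, P.coeff (r - 1) = - (k + N + 1) →
    -- an irreducible factor of `P` is `T - a`, `a ≥ 1`, or its degree `m ≥ 2` and `c_1` are large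
    (∀ Q : ℤ[X], Q.Monic → Irreducible Q → Q ∣ P →
      (∃ a : ℤ, 1 ≤ a ∧ Q = X - C a) ∨
      (8 / 5 * (N : ℝ) < k + N + 1 ∧ 2 / 5 * (Q.natDegree : ℝ) * N < k + N + 1)) ∧
    -- if `k + 1 ≤ (3 / 5) N`, then `P` is the polynomial of a complete intersection
    ((k : ℝ) + 1 ≤ 3 / 5 * N → ∃ a : Fin r → ℤ, (∀ i, 1 ≤ a i) ∧ P = ∏ i, (X - C (a i))) := by
  have hM2 : Pool.Agent.N17.HC.S_M2 := Pool.Agent.R852.BC.main2
  have hCUB := Pool.Agent.N17.HC.t_CUB Pool.Agent.N17.HC.t_ALG hM2 Pool.Agent.N17.HC.t_FAC
    Pool.Agent.N17.HC.t_CUBE Pool.Agent.N17.HC.t_REC Pool.Agent.N17.HC.t_CHR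
    Pool.Agent.N17.HC.t_DIV Pool.Agent.N17.HC.t_ANA
  have hexp := Pool.Agent.N17.HC.FIN.exp_lb
  obtain ⟨N₁, h₁⟩ := Pool.Agent.N17.CK.final Pool.Agent.N17.HC.t_KOS Pool.Agent.N17.HC.t_LSP hCUB
    hM2 Pool.Agent.N17.CK.t_ROOT Pool.Agent.N17.CK.t_BD Pool.Agent.N17.CK.t_SPL
    Pool.Agent.N17.CK.t_POS Pool.Agent.N17.CK.t_END r hr (2 * Real.exp (1 / 2) / 3 - 1)
    (by linarith)
  obtain ⟨N₂, h₂⟩ := Pool.Agent.U256.CY.main r hr r
  refine ⟨N₁ + N₂ + 1, fun N hN P hP hd hpos hsch hseg hint k hk => ?_⟩
  have hN1 : (1 : ℝ) ≤ N := by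
    have : 1 ≤ N := by omega
    exact_mod_cast this
  have hintK : ∀ (l : ℕ) (t : ℤ), ∃ z : ℤ,
      Pool.Agent.U256.CY.kosT N (Pool.Agent.N17.HC.rootsOf P) l (N + t) = z := by
    intro l t
    obtain ⟨z, hz⟩ := hint l t
    exact ⟨z, by rw [kosT_eq]; exact hz⟩
  obtain ⟨-, hposl⟩ := Pool.Agent.N17.CK.t_POS r P hP hd hpos
  -- the factors of degree `m ≥ 2`
  have hmain : ∀ Q : ℤ[X], Q.Monic → Irreducible Q → Q ∣ P → 2 ≤ Q.natDegree →
      2 / 5 * (Q.natDegree : ℝ) * N < k + N + 1 := by
    intro Q hQ hirr hQP hm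
    by_cases hkr : (k : ℝ) ≤ r * N
    · exact h₂ N (by omega) P hP hd hpos hsch hseg hintK k hk hkr Q hQ hirr hQP hm
    · push Not at hkr
      have hmr : (Q.natDegree : ℝ) ≤ r := by
        have : Q.natDegree ≤ r := by
          rw [← hd]
          exact natDegree_le_of_dvd hQP hP.ne_zero
        exact_mod_cast this
      have h3 : (Q.natDegree : ℝ) * N ≤ r * N := by gcongr
      have h4 : (0 : ℝ) ≤ (Q.natDegree : ℝ) * N := by positivity
      nlinarith
  have hfac : ∀ Q : ℤ[X], Q.Monic → Irreducible Q → Q ∣ P →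
      (∃ a : ℤ, 1 ≤ a ∧ Q = X - C a) ∨
      (8 / 5 * (N : ℝ) < k + N + 1 ∧ 2 / 5 * (Q.natDegree : ℝ) * N < k + N + 1) := by
    intro Q hQ hirr hQP
    have hcases : Q.natDegree = 0 ∨ Q.natDegree = 1 ∨ (2 ≤ Q.natDegree ∧ Q.natDegree ≤ 3) ∨
      4 ≤ Q.natDegree := by omega
    rcases hcases with h0 | h0 | ⟨h2, h3⟩ | h4
    · exact absurd (hQ.natDegree_eq_zero.1 h0) hirr.ne_one
    · left
      have hQ1 : Q = X - C (- Q.coeff 0) := by
        rw [map_neg, sub_neg_eq_add]
        have := eq_X_add_C_of_natDegree_le_one h0.le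
        rw [show Q.coeff 1 = 1 by rw [← h0]; exact hQ.coeff_natDegree, C_1, one_mul] at this
        exact this
      exact ⟨_, hposl _ (hQ1 ▸ hQP), hQ1⟩
    · right
      refine ⟨?_, hmain Q hQ hirr hQP h2⟩
      by_contra hcon
      push Not at hcon
      obtain ⟨a, -, ha⟩ := (h₁ N (by omega) P hP hd hpos hsch (fun t => hintK 0 t)
        (fun t => hintK 1 t) k hk (by
          rw [show 2 * Real.exp (1 / 2) / 3 - (2 * Real.exp (1 / 2) / 3 - 1) = 1 by ring,
            Real.rpow_one]
          linarith)).1 Q hQ hirr hQP h3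
      rw [ha, natDegree_X_sub_C] at h2
      omega
    · right
      have h5 := hmain Q hQ hirr hQP (by omega)
      have h6 : (4 : ℝ) ≤ Q.natDegree := by exact_mod_cast h4
      refine ⟨?_, h5⟩
      have h7 : 4 * (N : ℝ) ≤ Q.natDegree * N := by gcongr
      linarith
  refine ⟨hfac, fun hle => Pool.Agent.N17.CK.t_END r P hP hd fun Q hQ hirr hQP => ?_⟩
  rcases hfac Q hQ hirr hQP with h3 | ⟨h3, -⟩
  · exact h3
  · exfalso
    linarith

end Pool.Agent.Results.MP_9a3fdb_ag.FanoAllCodimensions
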