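import Pool.Agent.U429.VV.Main

/-!
# Smooth subvarieties of projective space with small first Chern class of the normal bundle,
# uniformly in the codimension

Let `X ⊂ ℙ^N` be a smooth subvariety of codimension `r`, `N ≥ 4 r`. By Barth and Larsen the groups
`H^(2 i)(X, ℤ)`, `i ≤ r`, are generated by the powers of the hyperplane class `h`, and `Pic X = ℤ h`;
so `ω_X = O_X(k)` for some `k`, and the Chern polynomial `P = T^r - c₁ T^(r-1) + c₂ T^(r-2) - ...` of
the normal bundle (`c_i(N_X) = c_i h^i`) has integral coefficients, `c₁ = k + N + 1` by adjunction.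
Its complex roots `β_i` are the Chern roots of `N_X` in units of `h`, and `c_r = β_1 ... β_r` is the
degree of `X` (self-intersection formula). `X` is numerically a complete intersection of hypersurfaces
of degrees `a_1, ..., a_r` if and only if `β_i = a_i`; then it has the degree, the canonical class, the
Chern classes and the Hilbert polynomial of a complete intersection. The following is known:

* `N_X(-1)` is globally generated, so `c_i ≥ 0` and `c_1 c_i - c_(i+1) ≥ 0` for the Chern classes of
  `N_X(-1)`; these are the signed coefficients of `P(T + 1)`;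
* `χ(O_X(t))` is an integer for all `t`; by the theorem of Riemann-Roch it is the Koszul sum
  `Σ_S (-1)^|S| χ(ℙ^N, O(t - Σ_(i ∈ S) β_i))`;
* `χ(N_X^*(t))` is an integer for all `t`; it is `Σ_i χ(O_X(t - β_i))`.

We show that there is an **absolute** constant `c > 0` such that **for all `r ≥ 1` and `N ≥ 2`** (so `r`
may grow with `N`, up to `N^(1/3 - ε)`) `X` is numerically a complete intersection if

  `c₁(N_X) (r log N)² ≤ c N`,   `c₁(N_X) = k + N + 1`;

more precisely it is sufficient that, with `d` the degree of `X`,

  `r log N ≤ e^(-15) N`  and  `c₁(N_X) ∏_(p ∣ d) p^(2/(p-1)) ≤ e^(-15) N`.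

The product is at most `C (1 + log d)²`, and it is bounded if `d` has a bounded number of prime
factors, or only prime factors larger than `log d`: then the condition on `c₁(N_X)` is linear in `N`,
for all `r ≤ c N / log N`, and the degree of `X` may be as large as `exp (c N / log N)`.

In `Results/MP_9a3fdb_ag/SmallCanonicalClass.lean` the codimension is at most three (or the
statement is about Chern roots of degree at most three over `ℚ`), since the proof uses quadratic,
cubic reciprocity; `N` is large in terms of `r`. The idea here is different (a method of auxiliary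
polynomials with integral values, as in the proofs of Pólya's theorem on entire functions with integer
values and in the work of Vaaler and Voloch). Let `D = N + 2 - 2 r`.
(1) By the two integrality conditions `d^(N+1) Σ_i f(β_i)` is an integer for all integer valued `f` of
degree `≤ N - r` (project HC of the library). (2) Let `M` be the part of `D!` prime to `d`. By the
pigeonhole principle there is a polynomial `H ≠ 0` of degree `< D` with small integral coefficients,
all whose values at the integers are divisible by `M` (`pigeon`): the number of classes to consider is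
`∏_(k < D) M / (M, k!)`, by Newton's interpolation. (3) For integers `a`, `b` of moderate size and
`t < r` the integer `Σ_i H(a β_i + b) β_i^t` is divisible by `M` and smaller than `M`, so it is zero; it
follows that `H(a β_i + b) = 0` (`vanish`). (4) If `β_i` is irrational, then these are more than `D`
zeros of `H`: a contradiction. (5) The part of `k!` composed of the primes dividing `d` is at most
`∏_(p ∣ d) p^(k/(p-1))`, and the product is estimated with the theorem of Mertens.
-/

set_option autoImplicit false

namespace Pool.Agent.Results.MP_9a3fdb_ag.UniformInCodimension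

open Polynomial

/-- The Chern roots: the complex roots of `P` with multiplicities. -/
noncomputable def chernRoots (P : ℤ[X]) : Multiset ℂ := (P.map (Int.castRingHom ℂ)).roots

/-- The Chern numbers of `N_X(-1)`: `(-1)^i` times the coefficient of `T^(r - i)` in `P(T + 1)`,
`i ≤ r`. -/
noncomputable def chernTwist (r : ℕ) (P : ℤ[X]) (i : ℕ) : ℤ :=
  (-1) ^ i * (P.comp (X + 1)).coeff (r - i)

/-- `χ(ℙ^N, O(x)) = (x + 1) ... (x + N) / N!`. -/
noncomputable def chiPN (N : ℕ) (x : ℂ) : ℂ :=
  (∏ j ∈ Finset.range N, (x + j + 1)) / N.factorial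

/-- `χ(O_X(x)) = Σ_S (-1)^|S| χ(ℙ^N, O(x - β_S))`, `S` running over the submultisets of the multiset
of the Chern roots of the normal bundle, `β_S` the sum of the elements of `S`. -/
noncomputable def chiX (N : ℕ) (P : ℤ[X]) (x : ℂ) : ℂ :=
  ((chernRoots P).powerset.map fun S => (-1) ^ Multiset.card S * chiPN N (x - S.sum)).sum

/-- `χ(N_X^*(x)) = Σ_i χ(O_X(x - β_i))`. -/
noncomputable def chiConormal (N : ℕ) (P : ℤ[X]) (x : ℂ) : ℂ :=
  ((chernRoots P).map fun b => chiX N P (x - b)).sum

/-- What is known of the Chern polynomial `P` of the normal bundle of a smooth subvariety `X` of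
codimension `r` of `ℙ^N` with `ω_X = O_X(k)`. -/
structure Conditions (N r : ℕ) (P : ℤ[X]) (k : ℤ) : Prop where
  monic : P.Monic
  natDegree : P.natDegree = r
  /-- the Schur polynomials `c_i` and `c_1 c_i - c_(i+1)` of `N_X(-1)` are not negative -/
  chern_nonneg : ∀ i ≤ r, 0 ≤ chernTwist r P i
  schur_nonneg : ∀ i < r, chernTwist r P (i + 1) ≤ chernTwist r P 1 * chernTwist r P i
  /-- the Euler characteristics of `O_X(t)` and of `N_X^*(t)` are integers -/
  chiX_int : ∀ t : ℤ, ∃ z : ℤ, chiX N P t = z
  chiConormal_int : ∀ t : ℤ, ∃ z : ℤ, chiConormal N P t = z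
  /-- `c_1(N_X) = k + N + 1` -/
  adjunction : P.coeff (r - 1) = - (k + N + 1)

/-- `X` is numerically a complete intersection: `P = (T - a_1) ... (T - a_r)` with integers
`a_i ≥ 1`. -/
def IsNumericallyCompleteIntersection (r : ℕ) (P : ℤ[X]) : Prop :=
  ∃ a : Fin r → ℤ, (∀ i, 1 ≤ a i) ∧ P = ∏ i, (X - C (a i))

/-- The degree of `X`, the absolute value of the constant coefficient. -/
def degree (P : ℤ[X]) : ℕ := (P.coeff 0).natAbs

open Pool.Agent.N17.HC in
theorem bin_eq (N : ℕ) (x : ℂ) : bin N (N + x) = chiPN N x := by
  unfold bin chiPN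
  congr 1
  rw [← Finset.prod_range_reflect]
  refine Finset.prod_congr rfl fun j hj => ?_
  have hj' := Finset.mem_range.1 hj
  rw [show N - 1 - j = N - (j + 1) by omega, Nat.cast_sub (by omega)]
  push_cast
  ring

open Pool.Agent.N17.HC in
theorem kos_eq (N : ℕ) (P : ℤ[X]) (x : ℂ) : kos N (rootsOf P) (N + x) = chiX N P x := by
  unfold kos chiX
  change Multiset.sum (Multiset.map _ (Multiset.powerset (chernRoots P))) = _
  congr 1
  refine Multiset.map_congr rfl fun S _ => ?_
  rw [add_sub_assoc, bin_eq]

theorem cond {N r : ℕ} {P : ℤ[X]} {k : ℤ} (h : Conditions N r P k) :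
    Pool.Agent.U429.VV.Cond N r P := by
  refine ⟨h.monic, h.natDegree, h.chern_nonneg, h.schur_nonneg, ?_, ?_⟩
  · intro t
    obtain ⟨z, hz⟩ := h.chiX_int t
    exact ⟨z, by rw [kos_eq]; exact hz⟩
  · intro t
    obtain ⟨z, hz⟩ := h.chiConormal_int t
    refine ⟨z, ?_⟩
    rw [← hz]
    unfold chiConormal
    change Multiset.sum (Multiset.map _ (chernRoots P)) = _
    congr 1
    refine Multiset.map_congr rfl fun b _ => ?_
    rw [add_sub_assoc, kos_eq]

theorem prod_eq (d : ℕ) : ∏ p ∈ d.primeFactors, (p : ℝ) ^ (2 / ((p : ℝ) - 1)) =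
    Real.exp (2 * Pool.Agent.U429.VV.kap d) := by
  rw [Pool.Agent.U429.VV.kap, Finset.mul_sum, Real.exp_sum]
  refine Finset.prod_congr rfl fun p hp => ?_
  have hp0 : (0 : ℝ) < p := by exact_mod_cast (Nat.prime_of_mem_primeFactors hp).pos
  rw [Real.rpow_def_of_pos hp0]
  congr 1
  ring

/-- **Smooth subvarieties of `ℙ^N` of any codimension `r` with `c₁(N_X) (r log N)² ≤ c N`, `c > 0`
absolute, are numerically complete intersections.**

1. The finer form: `r log N ≤ e^(-15) N` and `c₁(N_X) ∏_(p ∣ deg X) p^(2/(p-1)) ≤ e^(-15) N`.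
2. There is `c > 0` such that `c₁(N_X) (r log N)² ≤ c N` is sufficient, for all `r ≥ 1`, `N ≥ 2`. -/
theorem result :
    (∀ N r : ℕ, 2 ≤ N → 1 ≤ r → ∀ (P : ℤ[X]) (k : ℤ), Conditions N r P k →
      (r : ℝ) * Real.log N ≤ Real.exp (-15) * N →
      ((k : ℝ) + N + 1) * ∏ p ∈ (degree P).primeFactors, (p : ℝ) ^ (2 / ((p : ℝ) - 1)) ≤
        Real.exp (-15) * N →
      IsNumericallyCompleteIntersection r P) ∧
    (∃ c : ℝ, 0 < c ∧ ∀ N r : ℕ, 2 ≤ N → 1 ≤ r → ∀ (P : ℤ[X]) (k : ℤ), Conditions N r P k →
      ((k : ℝ) + N + 1) * (r * Real.log N) ^ 2 ≤ c * N →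
      IsNumericallyCompleteIntersection r P) := by
  refine ⟨?_, ?_⟩
  · intro N r hN hr P k h h1 h2
    refine Pool.Agent.U429.VV.main_fine hN hr (cond h) h.adjunction h1 ?_
    rw [prod_eq] at h2
    push_cast
    exact h2
  · obtain ⟨c, hc, hmain⟩ := Pool.Agent.U429.VV.main_log
    refine ⟨c, hc, fun N r hN hr P k h h1 => hmain N r hN hr P (cond h) _ h.adjunction ?_⟩
    push_cast
    exact h1

end Pool.Agent.Results.MP_9a3fdb_ag.UniformInCodimension
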