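import Pool.Agent.W615.Y11
import Pool.Agent.W615.LA4
import Pool.Agent.W615.X10
import Pool.Agent.W467.FG.F

/-!
# Subvarieties of codimension two with infinitesimal symmetries

Let `X ⊂ ℙⁿ` be a nonsingular irreducible subvariety of codimension two which is the zero scheme of a section
`s` of a rank two bundle `E` (for `n ≥ 6` every nonsingular `X` of codimension two is of this form, by the
theorems of Barth-Larsen and Serre). A linear vector field `x ↦ A x` on `ℙⁿ` is a symmetry of `(E, s)` if it has a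
lift `D` to `E` with `D s = μ s`, and a symmetry of `E` if it has a lift at all. (By the uniqueness in the
correspondence of Serre every linear vector field which is tangent to `X` is a symmetry of `(E, s)`; this is
not part of the formal statement.) Suppose that `X` is not a transversal intersection of two hypersurfaces. Then:

* `n ≤ 6`, if `(E, s)` has a symmetry which is not scalar;
* `n ≥ 4`: modulo the scalars the symmetries of `E` are multiples of one diagonalisable matrix with integral
  eigenvalues `w 0, ..., w n`;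
* `n = 6` (the second question): if `(E, s)` has a symmetry which is not scalar, then the smallest or the
  largest value of `w` is taken at least twice;
* `n ≥ 4`: a symmetry of `(E, s)` which is not scalar does not have five independent eigenvectors with
  eigenvalues strictly between two eigenvalues;
* `n ≥ 3`: a symmetry of `E` with two different eigenvalues has no eigenvalue of algebraic multiplicity three.

The splitting theorems are those of the library folder `W615` (`structure_main`, `five_main'`, `triple`,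
`symmetric_main`, see `MP_b01859_ag`); here the smoothness of `X` is used to obtain their hypothesis on the
derivative of `s` at the fixed points, and the splitting gives the equations of `X` (`W467.FX`).
-/

set_option autoImplicit false

namespace Pool.Agent.Results.MP_9a3fdb_ag.VectorFieldsCodimTwo

open MvPolynomial H960VB

/-- the affine cone over the projective zero set `X` of the ideal `I` -/
def cone {n : ℕ} (I : Ideal (MvPolynomial (Fin (n + 1)) ℂ)) : Set (Fin (n + 1) → ℂ) :=
  {x | ∀ F ∈ I, eval x F = 0}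

/-- the gradient at the point `x` -/
noncomputable def grad {n : ℕ} (F : MvPolynomial (Fin (n + 1)) ℂ) (x : Fin (n + 1) → ℂ) :
    Fin (n + 1) → ℂ := fun i => eval x (pderiv i F)

/-- the conormal space at the point `x` of the cone -/
noncomputable def conormal {n : ℕ} (I : Ideal (MvPolynomial (Fin (n + 1)) ℂ))
    (x : Fin (n + 1) → ℂ) : Submodule ℂ (Fin (n + 1) → ℂ) :=
  Submodule.span ℂ {v | ∃ F ∈ I, v = grad F x}

/-- `I` is the homogeneous ideal of a nonsingular irreducible closed subvariety `X` of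
codimension `r` of the complex projective space `ℙⁿ`: it is a homogeneous prime ideal, `X` is not
empty, and at every point of `X` the gradients of the elements of `I` span a space of dimension
`r` (Jacobian criterion). -/
structure IsSmoothVariety (n r : ℕ) (I : Ideal (MvPolynomial (Fin (n + 1)) ℂ)) : Prop where
  prime : I.IsPrime
  homogeneous : ∀ F ∈ I, ∀ d, homogeneousComponent d F ∈ I
  nonempty : ∃ x ∈ cone I, x ≠ 0
  smooth : ∀ x ∈ cone I, x ≠ 0 → Module.finrank ℂ (conormal I x) = r

/-- `X` is a transversal intersection of `r` hypersurfaces: there are forms `F_1, …, F_r` with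
`X = V(F_1, …, F_r)`, with linearly independent differentials at every point of `X`, and
generating the homogeneous ideal `I` of `X`. -/
def IsTransversalIntersection (n r : ℕ) (I : Ideal (MvPolynomial (Fin (n + 1)) ℂ)) : Prop :=
  ∃ F : Fin r → MvPolynomial (Fin (n + 1)) ℂ, (∀ i, ∃ d, (F i).IsHomogeneous d) ∧
    (∀ x, x ∈ cone I ↔ ∀ i, eval x (F i) = 0) ∧
    (∀ x ∈ cone I, x ≠ 0 → LinearIndependent ℂ (fun i => grad (F i) x)) ∧
    I = Ideal.span (Set.range F)

/-- the vectors of polynomials -/
abbrev Vec {n : ℕ} (E : Bundle2 n) : Type := Fin E.a → MvPolynomial (Fin (n + 1)) ℂ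

/-- `X` is, as a scheme, the zero scheme of the global section `s` of the rank two bundle `E`: the
ideal `I` of `X` is the saturation of the ideal generated by the coordinates of `s`. -/
def IsZeroScheme {n : ℕ} (E : Bundle2 n) (s : Vec E)
    (I : Ideal (MvPolynomial (Fin (n + 1)) ℂ)) : Prop :=
  E.IsSection 0 s ∧ ∀ F, F ∈ I ↔ ∃ N : ℕ, ∀ i, X i ^ N * F ∈ Ideal.span (Set.range s)

/-- the derivative of `p` in the direction of the linear vector field `x ↦ A x` -/
noncomputable def along {n : ℕ} (A : Matrix (Fin (n + 1)) (Fin (n + 1)) ℂ)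
    (p : MvPolynomial (Fin (n + 1)) ℂ) : MvPolynomial (Fin (n + 1)) ℂ :=
  ∑ s, pderiv s p * (∑ t, C (A s t) * X t)

/-- `D` is a lift to `E` of the vector field `x ↦ A x`: an operator on the sections of the twists
`E(d)`, `d ∈ ℤ`, which preserves `d`, is additive and satisfies
`D (p G) = A(p) G + p D G` for all homogeneous polynomials `p`. -/
structure IsLift {n : ℕ} (E : Bundle2 n) (A : Matrix (Fin (n + 1)) (Fin (n + 1)) ℂ)
    (D : Vec E → Vec E) : Prop where
  sec : ∀ d G, E.IsSection d G → E.IsSection d (D G)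
  add : ∀ d G G', E.IsSection d G → E.IsSection d G' → D (G + G') = D G + D G'
  leib : ∀ d e p G, E.IsSection d G → HomZ p e → D (p • G) = along A p • G + p • D G

/-- the vector field `x ↦ A x` has a lift to `E` -/
def SymmetryOf {n : ℕ} (E : Bundle2 n) (A : Matrix (Fin (n + 1)) (Fin (n + 1)) ℂ) : Prop :=
  ∃ D : Vec E → Vec E, IsLift E A D

/-- the vector field `x ↦ A x` has a lift `D` to `E` with `D s = μ s`, `μ` in `ℂ` -/
def SymmetryOfPair {n : ℕ} (E : Bundle2 n) (s : Vec E)
    (A : Matrix (Fin (n + 1)) (Fin (n + 1)) ℂ) : Prop :=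
  ∃ (D : Vec E → Vec E) (μ : ℂ), IsLift E A D ∧ D s = μ • s

/-- `x` is an eigenvector of `A`, of eigenvalue `v` -/
def Eigen {n : ℕ} (A : Matrix (Fin (n + 1)) (Fin (n + 1)) ℂ) (v : ℂ) (x : Fin (n + 1) → ℂ) :
    Prop := x ≠ 0 ∧ A.mulVec x = v • x

/-- `v` lies strictly inside the segment joining two different eigenvalues of `A` -/
def Between {n : ℕ} (A : Matrix (Fin (n + 1)) (Fin (n + 1)) ℂ) (v : ℂ) : Prop :=
  ∃ (α β : ℂ) (t : ℝ), α ≠ β ∧ (∃ x, Eigen A α x) ∧ (∃ y, Eigen A β y) ∧ 0 < t ∧ t < 1 ∧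
    v = α + t * (β - α)

/-- there are five independent eigenvectors with eigenvalues strictly between two eigenvalues -/
def FiveBetween {n : ℕ} (A : Matrix (Fin (n + 1)) (Fin (n + 1)) ℂ) : Prop :=
  ∃ u : Fin 5 → Fin (n + 1) → ℂ, LinearIndependent ℂ u ∧ ∀ k, ∃ v : ℂ, Eigen A v (u k) ∧ Between A v

/-- the dimension of `ker (A - l)^j` -/
noncomputable def kerDim {n : ℕ} (A : Matrix (Fin (n + 1)) (Fin (n + 1)) ℂ) (l : ℂ) (j : ℕ) : ℕ :=
  Module.finrank ℂ (LinearMap.ker ((A - Matrix.scalar (Fin (n + 1)) l).mulVecLin ^ j))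

section proof

variable {n : ℕ} {I : Ideal (MvPolynomial (Fin (n + 1)) ℂ)} {E : Bundle2 n} {s : Vec E}

theorem zs_of (hI : IsSmoothVariety n 2 I) (hs : IsZeroScheme E s I) :
    Pool.Agent.W467.FX.ZS E s I :=
  { sec := Pool.Agent.W615.sec_iff.2 hs.1
    prime := hI.prime
    mem := fun i => (hs.2 _).2 ⟨0, fun j => by
      rw [pow_zero, one_mul]
      exact Ideal.subset_span ⟨i, rfl⟩⟩
    gen := by
      intro F hF x hx
      obtain ⟨N, hN⟩ := (hs.2 F).1 hF
      obtain ⟨i, hi⟩ : ∃ i, x i ≠ 0 := by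
        by_contra hc
        push Not at hc
        exact hx (funext hc)
      exact ⟨X i ^ N, by rw [map_pow, eval_X]; exact pow_ne_zero _ hi, hN i⟩
    smooth := hI.smooth
    ne := hI.nonempty }

/-- a splitting gives the equations -/
theorem ti_of_splits (hn : 2 ≤ n) (hI : IsSmoothVariety n 2 I) (hs : IsZeroScheme E s I)
    (h : E.Splits) : IsTransversalIntersection n 2 I := by
  classical
  have Z := zs_of hI hs
  obtain ⟨F, G, hF, hG, hFG⟩ := Z.ci hn h
  have hrange : I = Ideal.span (Set.range ![F, G]) := by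
    rw [hFG, Matrix.range_cons, Matrix.range_cons, Matrix.range_empty, Set.union_empty]
    rfl
  refine ⟨![F, G], ?_, ?_, ?_, hrange⟩
  · intro i
    fin_cases i
    · exact hF
    · exact hG
  · intro x
    constructor
    · intro hx i
      apply hx
      rw [hrange]
      exact Ideal.subset_span ⟨i, rfl⟩
    · intro hx H hH
      have h1 : I ≤ RingHom.ker (eval x) := by
        rw [hrange, Ideal.span_le]
        rintro _ ⟨i, rfl⟩
        exact hx i
      exact h1 hH
  · intro x hx hx0
    exact Pool.Agent.W467.FX.indep_of_span hrange hx (hI.smooth x hx hx0)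

/-- the derivative of a combination of the coordinates of `s` at a zero -/
theorem grad_comb {x : Fin (n + 1) → ℂ} (h0 : evv s x = 0) {F h : MvPolynomial (Fin (n + 1)) ℂ}
    (hF : eval x F = 0) (hm : h * F ∈ Ideal.span (Set.range s)) :
    ∃ c : Fin E.a → ℂ, ∀ l, eval x h * eval x (pderiv l F) = ∑ k, c k * eval x (pderiv l (s k)) := by
  classical
  obtain ⟨a, ha⟩ := Ideal.mem_span_range_iff_exists_fun.1 hm
  refine ⟨fun k => eval x (a k), fun l => ?_⟩
  have h1 := congrArg (fun p => eval x (pderiv l p)) ha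
  simp only [map_sum, Derivation.leibniz, map_add, smul_eq_mul, map_mul] at h1
  have h2 : ∀ k, eval x (s k) = 0 := fun k => congrFun h0 k
  simp only [h2, zero_mul, add_zero, hF] at h1
  exact h1.symm

/-- the derivative of `s` has rank two at the points of `X` -/
theorem smoothAt_of (hn : 1 ≤ n) (hI : IsSmoothVariety n 2 I) (hs : IsZeroScheme E s I)
    {x : Fin (n + 1) → ℂ} (hx0 : x ≠ 0) (h0 : evv s x = 0) : Pool.Agent.W615.SmoothAt s x := by
  classical
  have Z := zs_of hI hs
  have hx := Z.mem_cone hx0 h0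
  obtain ⟨W⟩ := H938TB.exists_wedge hn (Pool.Agent.W615.triv E)
  obtain ⟨_, _, G, H, hG, hH, hw⟩ := Pool.Agent.W615.exists_sec_ne W x hx0
  obtain ⟨i, j, hij⟩ := Z.exists_minor W hG.ker hH.ker hx hx0 hw
  have m1 := Z.f_mem W hG.ker
  have m2 := Z.f_mem W hH.ker
  obtain ⟨u1, hu1, hm1⟩ := Z.gen _ m1 x hx0
  obtain ⟨u2, hu2, hm2⟩ := Z.gen _ m2 x hx0
  obtain ⟨c, hc⟩ := grad_comb h0 (hx _ m1) hm1
  obtain ⟨c', hc'⟩ := grad_comb h0 (hx _ m2) hm2
  by_contra hcon
  unfold Pool.Agent.W615.SmoothAt Pool.Agent.W615.jm at hcon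
  push Not at hcon
  apply hij
  have e1 := hc i
  have e2 := hc j
  have e3 := hc' i
  have e4 := hc' j
  rw [Pool.Agent.W467.FX.eval_Lam]
  show eval x (pderiv i (W.wd s G)) * eval x (pderiv j (W.wd s H)) -
    eval x (pderiv j (W.wd s G)) * eval x (pderiv i (W.wd s H)) = 0
  apply mul_left_cancel₀ (mul_ne_zero hu1 hu2)
  rw [mul_zero]
  have e5 : eval x u1 * eval x u2 * (eval x (pderiv i (W.wd s G)) * eval x (pderiv j (W.wd s H)) -
      eval x (pderiv j (W.wd s G)) * eval x (pderiv i (W.wd s H))) =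
      (eval x u1 * eval x (pderiv i (W.wd s G))) * (eval x u2 * eval x (pderiv j (W.wd s H))) -
      (eval x u1 * eval x (pderiv j (W.wd s G))) * (eval x u2 * eval x (pderiv i (W.wd s H))) := by
    ring
  rw [e5, e1, e2, e3, e4, Finset.sum_mul_sum, Finset.sum_mul_sum, ← Finset.sum_sub_distrib]
  refine Finset.sum_eq_zero fun k _ => ?_
  rw [← Finset.sum_sub_distrib]
  refine Finset.sum_eq_zero fun k' _ => ?_
  have h1 := hcon i j k k'
  linear_combination c k * c' k' * h1

/-- the columns of `P` are eigenvectors -/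
theorem eig_col {A P P' : Matrix (Fin (n + 1)) (Fin (n + 1)) ℂ} {w : Fin (n + 1) → ℤ}
    (hP : P * P' = 1) (hP' : P' * P = 1) {a b : ℂ}
    (hA : A = a • (P * Matrix.diagonal (fun i => (w i : ℂ)) * P') + b • 1) (i : Fin (n + 1)) :
    Eigen A (a * w i + b) (P.mulVec (Pi.single i 1)) := by
  classical
  constructor
  · intro h
    have h1 : P'.mulVec (P.mulVec (Pi.single i (1 : ℂ))) = 0 := by rw [h, Matrix.mulVec_zero]
    rw [Matrix.mulVec_mulVec, hP', Matrix.one_mulVec] at h1
    have h2 := congrFun h1 i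
    rw [Pi.single_eq_same] at h2
    exact one_ne_zero h2
  · have hc := Pool.Agent.W615.conj_eq hP' hA
    have h1 : A * P = P * Matrix.diagonal (fun l => a * (w l : ℂ) + b) := by
      rw [← hc, ← mul_assoc, ← mul_assoc, hP, one_mul]
    have h2 : (Pi.single i (a * (w i : ℂ) + b) : Fin (n + 1) → ℂ) =
        (a * (w i : ℂ) + b) • Pi.single i 1 := by
      funext l
      rw [Pi.smul_apply, Pi.single_apply, Pi.single_apply, smul_eq_mul]
      split_ifs <;> simp
    rw [Matrix.mulVec_mulVec, h1, ← Matrix.mulVec_mulVec, Matrix.diagonal_mulVec_single, mul_one,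
      h2, Matrix.mulVec_smul]

/-- the smallest or the largest weight is not simple -/
theorem ends (hn : 6 ≤ n) {A P P' : Matrix (Fin (n + 1)) (Fin (n + 1)) ℂ} {w : Fin (n + 1) → ℤ}
    (hP : P * P' = 1) {a b : ℂ}
    (hA : A = a • (P * Matrix.diagonal (fun i => (w i : ℂ)) * P') + b • 1)
    (hns : ∀ c : ℂ, A ≠ c • 1) (h5 : ¬ FiveBetween A) :
    ∃ i j, i ≠ j ∧ w i = w j ∧ ((∀ k, w i ≤ w k) ∨ ∀ k, w k ≤ w i) := by
  classical
  by_contra hcon
  have hP' : P' * P = 1 := mul_eq_one_comm.1 hP
  obtain ⟨p, hp⟩ := Finite.exists_min w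
  obtain ⟨q, hq⟩ := Finite.exists_max w
  have hpq : w p ≠ w q := by
    intro h
    apply hns (a * w p + b)
    have hk : ∀ k, w k = w p := fun k => le_antisymm (h ▸ hq k) (hp k)
    have e2 : Matrix.diagonal (fun i => (w i : ℂ)) =
        (w p : ℂ) • (1 : Matrix (Fin (n + 1)) (Fin (n + 1)) ℂ) := by
      rw [← Matrix.diagonal_one, ← Matrix.diagonal_smul]
      congr 1
      funext l
      rw [hk l]
      simp
    rw [hA, e2, Matrix.mul_smul, mul_one, Matrix.smul_mul, hP, smul_smul, ← add_smul]
  have ha : a ≠ 0 := by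
    rintro rfl
    exact hns b (by rw [hA, zero_smul, zero_add])
  have hlt1 : ∀ k, k ≠ p → w p < w k := fun k hk =>
    lt_of_le_of_ne (hp k) fun h => hcon ⟨p, k, hk.symm, h, Or.inl hp⟩
  have hlt2 : ∀ k, k ≠ q → w k < w q := fun k hk =>
    lt_of_le_of_ne (hq k) fun h => hcon ⟨q, k, hk.symm, h.symm, Or.inr hq⟩
  have hne : q ≠ p := fun h => hpq (by rw [h])
  have hlt : w p < w q := hlt1 q hne
  have hcard : 5 ≤ ((Finset.univ.erase p).erase q).card := by
    rw [Finset.card_erase_of_mem (Finset.mem_erase.2 ⟨hne, Finset.mem_univ q⟩),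
      Finset.card_erase_of_mem (Finset.mem_univ p), Finset.card_univ, Fintype.card_fin]
    omega
  obtain ⟨t, ht, htc⟩ := Finset.exists_subset_card_eq hcard
  have hmem : ∀ k : Fin 5, t.orderEmbOfFin htc k ≠ q ∧ t.orderEmbOfFin htc k ≠ p := by
    intro k
    have h1 := ht (Finset.orderEmbOfFin_mem t htc k)
    rw [Finset.mem_erase, Finset.mem_erase] at h1
    exact ⟨h1.1, h1.2.1⟩
  apply h5
  refine ⟨fun k => P.mulVec (Pi.single (t.orderEmbOfFin htc k) 1), ?_, fun k => ?_⟩
  · have h1 : LinearIndependent ℂ fun k : Fin 5 =>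
        (Pi.single (t.orderEmbOfFin htc k) 1 : Fin (n + 1) → ℂ) := by
      have h2 := (Pi.basisFun ℂ (Fin (n + 1))).linearIndependent.comp
        (fun k : Fin 5 => t.orderEmbOfFin htc k) (t.orderEmbOfFin htc).injective
      convert h2 using 1
      funext k
      simp [Pi.basisFun_apply]
    have h3 : LinearMap.ker P.mulVecLin = ⊥ := by
      refine LinearMap.ker_eq_bot'.2 fun x hx => ?_
      rw [Matrix.mulVecLin_apply] at hx
      have h4 : P'.mulVec (P.mulVec x) = 0 := by rw [hx, Matrix.mulVec_zero]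
      rwa [Matrix.mulVec_mulVec, hP', Matrix.one_mulVec] at h4
    exact h1.map' P.mulVecLin h3
  · obtain ⟨hkq, hkp⟩ := hmem k
    have g1 := hlt1 _ hkp
    have g2 := hlt2 _ hkq
    set i := t.orderEmbOfFin htc k with hi
    have g3 : (0 : ℝ) < (w q : ℝ) - w p := sub_pos.2 (by exact_mod_cast hlt)
    have g4 : (0 : ℝ) < (w i : ℝ) - w p := sub_pos.2 (by exact_mod_cast g1)
    have g5 : (w i : ℝ) - w p < (w q : ℝ) - w p := sub_lt_sub_right (by exact_mod_cast g2) _
    refine ⟨a * w i + b, eig_col hP hP' hA i, a * w p + b, a * w q + b,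
      ((w i : ℝ) - w p) / ((w q : ℝ) - w p), ?_, ⟨_, eig_col hP hP' hA p⟩,
      ⟨_, eig_col hP hP' hA q⟩, div_pos g4 g3, (div_lt_one g3).2 g5, ?_⟩
    · intro h
      have h2 : a * ((w p : ℂ) - w q) = 0 := by linear_combination h
      rcases mul_eq_zero.1 h2 with h3 | h3
      · exact ha h3
      · exact hpq (by exact_mod_cast sub_eq_zero.1 h3)
    · have h2 : ((w q : ℂ) - w p) ≠ 0 := by
        intro h3
        exact hpq (by exact_mod_cast (sub_eq_zero.1 h3).symm)
      push_cast
      field_simp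
      ring

/-- the symmetries with five intermediate eigenvalues -/
theorem no_five (hn : 4 ≤ n) (hI : IsSmoothVariety n 2 I) (hs : IsZeroScheme E s I)
    (hE : ¬ E.Splits) {A : Matrix (Fin (n + 1)) (Fin (n + 1)) ℂ} (hA : ∀ c : ℂ, A ≠ c • 1)
    (hsym : SymmetryOfPair E s A) : ¬ FiveBetween A := by
  rintro ⟨u, hu, hk⟩
  obtain ⟨D, μ, hD, hμ⟩ := hsym
  have hs' := Pool.Agent.W615.sec_of_isSection hs.1
  have hl : (Pool.Agent.W615.mkOp D hD.sec hD.add hD.leib).D s = fun i => C μ * s i := by
    show D s = fun i => C μ * s i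
    rw [hμ]
    funext i
    rw [Pi.smul_apply, smul_eq_C_mul]
  obtain ⟨z, v, hz, _, _, h0, h1⟩ := Pool.Agent.W615.five_main' hn hE
    (Pool.Agent.W615.mkOp D hD.sec hD.add hD.leib) hA hs' hl
    (Or.inr ⟨u, hu, fun k => by
      obtain ⟨v, h1, h2⟩ := hk k
      exact ⟨v, h1.2, h2⟩⟩)
  exact h1 (smoothAt_of (by omega) hI hs hz h0)

end proof

/-- **Theorem.** Let `X ⊂ ℙⁿ` be a nonsingular irreducible subvariety of codimension two, given as
the zero scheme of a section `s` of a rank two bundle `E`, and not a transversal intersection of two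
hypersurfaces.
(1) If `(E, s)` has a symmetry which is not scalar, then `n ≤ 6`.
(2) For `n ≥ 4` all the symmetries of `E` are in the span of the identity and of one
diagonalisable matrix with integral eigenvalues `w i`. If `n = 6` and if `(E, s)` has a symmetry which
is not scalar, then the smallest or the largest of the values `w i` is taken at least twice.
(3) For `n ≥ 4` a symmetry of `(E, s)` which is not scalar does not have five independent
eigenvectors with eigenvalues strictly between two eigenvalues.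
(4) For `n ≥ 3` a symmetry of `E` with at least two eigenvalues has no eigenvalue of algebraic
multiplicity at least three. -/
theorem result {n : ℕ} (I : Ideal (MvPolynomial (Fin (n + 1)) ℂ)) (hI : IsSmoothVariety n 2 I)
    (E : Bundle2 n) (s : Vec E) (hs : IsZeroScheme E s I)
    (hX : ¬ IsTransversalIntersection n 2 I) :
    ((∃ A, (∀ c : ℂ, A ≠ c • 1) ∧ SymmetryOfPair E s A) → n ≤ 6) ∧
    (4 ≤ n → ∃ (P P' : Matrix (Fin (n + 1)) (Fin (n + 1)) ℂ) (w : Fin (n + 1) → ℤ),
      P * P' = 1 ∧
      (∀ A, SymmetryOf E A → ∃ a b : ℂ,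
        A = a • (P * Matrix.diagonal (fun i => (w i : ℂ)) * P') + b • 1) ∧
      (n = 6 → (∃ A, (∀ c : ℂ, A ≠ c • 1) ∧ SymmetryOfPair E s A) →
        ∃ i j, i ≠ j ∧ w i = w j ∧ ((∀ k, w i ≤ w k) ∨ ∀ k, w k ≤ w i))) ∧
    (4 ≤ n → ∀ A, (∀ c : ℂ, A ≠ c • 1) → SymmetryOfPair E s A → ¬ FiveBetween A) ∧
    (3 ≤ n → ∀ A, SymmetryOf E A → ∀ (l : ℂ) (j : ℕ), 3 ≤ kerDim A l j →
      ∀ (m : ℂ) (v : Fin (n + 1) → ℂ), m ≠ l → ¬ Eigen A m v) := by
  refine ⟨?_, ?_, ?_, ?_⟩
  · rintro ⟨A, hA, D, μ, hD, hμ⟩
    by_contra hn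
    apply hX
    refine ti_of_splits (by omega) hI hs ?_
    have hs' := Pool.Agent.W615.sec_of_isSection hs.1
    have hl : (Pool.Agent.W615.mkOp D hD.sec hD.add hD.leib).D s = fun i => C μ * s i := by
      show D s = fun i => C μ * s i
      rw [hμ]
      funext i
      rw [Pi.smul_apply, smul_eq_C_mul]
    exact Pool.Agent.W615.symmetric_main (by omega)
      (Pool.Agent.W615.mkOp D hD.sec hD.add hD.leib) hA hs' hl
      (fun x hx h0 _ => smoothAt_of (by omega) hI hs hx h0)
  · intro hn
    have hE : ¬ E.Splits := fun h => hX (ti_of_splits (by omega) hI hs h)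
    obtain ⟨P, P', w, h1, h2⟩ := Pool.Agent.W615.structure_main hn hE
    have h3 : ∀ A, SymmetryOf E A → ∃ a b : ℂ,
        A = a • (P * Matrix.diagonal (fun i => (w i : ℂ)) * P') + b • 1 := by
      rintro A ⟨D, hD⟩
      exact h2 A ⟨Pool.Agent.W615.mkOp D hD.sec hD.add hD.leib⟩
    refine ⟨P, P', w, h1, h3, ?_⟩
    rintro h6 ⟨A, hA, hsym⟩
    obtain ⟨a, b, hab⟩ := h3 A (by
      obtain ⟨D, _, hD, _⟩ := hsym
      exact ⟨D, hD⟩)
    exact ends (by omega) h1 hab hA (no_five hn hI hs hE hA hsym)
  · intro hn A hA hsym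
    exact no_five hn hI hs (fun h => hX (ti_of_splits (by omega) hI hs h)) hA hsym
  · rintro hn A ⟨D, hD⟩ l j h3 m v hm ⟨hv, hAv⟩
    apply hX
    refine ti_of_splits (by omega) hI hs ?_
    refine Pool.Agent.W615.triple hn (Pool.Agent.W615.mkOp D hD.sec hD.add hD.leib) h3 ?_
    rintro ⟨k, hk⟩
    have h1 : ∀ i : ℕ, ((A - Matrix.scalar (Fin (n + 1)) l) ^ i).mulVec v =
        (m - l) ^ i • v := by
      intro i
      induction i with
      | zero => rw [pow_zero, pow_zero, Matrix.one_mulVec, one_smul]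
      | succ i ih =>
        have h2 : (A - Matrix.scalar (Fin (n + 1)) l).mulVec v = (m - l) • v := by
          rw [Matrix.sub_mulVec, hAv, sub_smul]
          congr 1
          funext s
          rw [Matrix.scalar_apply, Matrix.mulVec_diagonal, Pi.smul_apply, smul_eq_mul]
        rw [pow_succ, ← Matrix.mulVec_mulVec, h2, Matrix.mulVec_smul, ih, smul_smul, ← pow_succ']
    have h2 := h1 k
    rw [hk, Matrix.zero_mulVec] at h2
    rcases smul_eq_zero.1 h2.symm with h3 | h3
    · exact pow_ne_zero k (sub_ne_zero.2 hm) h3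
    · exact hv h3

end Pool.Agent.Results.MP_9a3fdb_ag.VectorFieldsCodimTwo
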